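import Pool.Agent.H29.Ism.Basic
import Pool.Agent.H25.Zir.Two
import Pool.Agent.H25.Zir.Graph

/-! # ISM module C2: Claim F for the symmetric group -/

namespace Pool.Agent.H6.Ism

open Equiv Finset Pool.Agent.H25.Zir Pool.Agent.H29.Ism

/-- the statement of module A3' -/
def Type3S {W : Type} [Group W] (B : BSys W) : Prop :=
  ∀ (u w : W) (M : W → W), Pool.Agent.H29.Ism.SM B u w M → ∀ s ∈ B.S, B.len (w * s) < B.len w →
    B.Le u (w * s) → M w ≠ w * s → M (w * s) ≠ M w * s →
    ∃ r, HexTop B w s r ∧ M w = w * r ∧ M (w * s) = w * s * r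

/-- the statement of module A7 -/
def CoatomS {W : Type} [Group W] (B : BSys W) : Prop :=
  ∀ (u w : W) (M : W → W), Pool.Agent.H29.Ism.SM B u w M → ∀ s ∈ B.S, B.len (w * s) < B.len w →
    M w = w * s → B.len (u * s) < B.len u →
    ∃ r, HexTop B w s r ∧ B.Le u (w * r) ∧ M (w * r) = w * s * r

/-- `B` is the Bruhat system of the symmetric group -/
structure IsSymB {n : ℕ} (B : BSys (Perm (Fin n))) : Prop where
  hS : ∀ s, s ∈ B.S ↔ ∃ i j : Fin n, (j : ℕ) = i + 1 ∧ s = swap i j
  hlen : ∀ y, B.len y = len y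
  hLe : ∀ x y, B.Le x y ↔ Le x y

variable {n : ℕ}

theorem swap_inj_lt {i j k l : Fin n} (hij : i < j) (hkl : k < l) (h : swap k l = swap i j) :
    k = i ∧ l = j := by
  have h1 := congrArg (fun f : Perm (Fin n) => f k) h
  simp only [swap_apply_left] at h1
  by_cases hki : k = i
  · subst hki
    rw [swap_apply_left] at h1
    exact ⟨rfl, h1⟩
  · exfalso
    by_cases hkj : k = j
    · subst hkj
      rw [swap_apply_right] at h1
      subst h1
      exact absurd (hij.trans hkl) (lt_irrefl _)
    · rw [swap_apply_of_ne_of_ne hki hkj] at h1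
      exact hkl.ne' h1

/-- a cover is a transposition without values in between -/
theorem cov_swap {x z : Perm (Fin n)} (hle : Le x z) (hl : len z = len x + 1) :
    ∃ a b : Fin n, a < b ∧ z b < z a ∧ x = z * swap a b ∧
      ∀ c, a < c → c < b → ¬ (z b < z c ∧ z c < z a) := by
  obtain ⟨a, b, hab, hx, hz, -⟩ := (cov_of_len hle hl).exists_swap
  have hza : z a = x b := by rw [hz, Perm.mul_apply, swap_apply_left]
  have hzb : z b = x a := by rw [hz, Perm.mul_apply, swap_apply_right]
  refine ⟨a, b, hab, by rw [hza, hzb]; exact hx, ?_, ?_⟩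
  · rw [hz, mul_assoc, swap_mul_self, mul_one]
  · intro c hac hcb hc
    have h1 := len_swap x hab hx
    rw [← hz, hl] at h1
    have hzc : z c = x c := by
      rw [hz, Perm.mul_apply, swap_apply_of_ne_of_ne hac.ne' hcb.ne]
    rw [hza, hzb, hzc] at hc
    have hmem : c ∈ ((univ : Finset (Fin n)).erase a).erase b := by
      simp [hac.ne', hcb.ne]
    have h2 := Finset.single_le_sum (f := fun c => ind (a < c ∧ c < b ∧ x a < x c ∧ x c < x b))
      (fun i _ => Nat.zero_le _) hmem
    have h3 : ind (a < c ∧ c < b ∧ x a < x c ∧ x c < x b) = 1 := by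
      unfold ind
      rw [if_pos ⟨hac, hcb, hc.1, hc.2⟩]
    have h4 : 1 ≤ ∑ c ∈ ((univ : Finset (Fin n)).erase a).erase b,
        ind (a < c ∧ c < b ∧ x a < x c ∧ x c < x b) := by
      rw [← h3]; exact h2
    omega

/-- a descent of positions between -/
theorem exists_desc_between (w : Perm (Fin n)) : ∀ k : ℕ, ∀ i j : Fin n, (j : ℕ) = i + 1 + k →
    w j < w i → ∃ a b : Fin n, (b : ℕ) = a + 1 ∧ i ≤ a ∧ b ≤ j ∧ w b < w a := by
  intro k
  induction k with
  | zero =>
    intro i j hij hw
    exact ⟨i, j, by omega, le_rfl, le_rfl, hw⟩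
  | succ k ih =>
    intro i j hij hw
    have hm : (i : ℕ) + 1 < n := by have := j.is_lt; omega
    by_cases h1 : w ⟨i + 1, hm⟩ < w i
    · refine ⟨i, ⟨i + 1, hm⟩, rfl, le_rfl, ?_, h1⟩
      rw [Fin.le_def]; simp only; omega
    · have h2 : w j < w ⟨i + 1, hm⟩ := lt_of_lt_of_le hw (not_lt.mp h1)
      obtain ⟨a, b, h3, h4, h5, h6⟩ := ih ⟨i + 1, hm⟩ j (by simp only; omega) h2
      refine ⟨a, b, h3, ?_, h5, h6⟩
      rw [Fin.le_def] at h4 ⊢
      simp only at h4
      omega

section

variable {B : BSys (Perm (Fin n))}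

theorem cov_iff (hB : IsSymB B) {x z : Perm (Fin n)} :
    B.Cov x z ↔ Le x z ∧ len z = len x + 1 := by
  unfold BSys.Cov
  rw [hB.hLe, hB.hlen, hB.hlen]

theorem no_cov_up (hB : IsSymB B) {y : Perm (Fin n)} {a b : Fin n} (hab : a < b) (hy : y a < y b)
    (h : B.Cov (y * swap a b) y) : False := by
  rw [cov_iff hB] at h
  have := len_swap_lt hab hy
  omega

/-- a hexagon at `w` with an adjacent transposition -/
theorem hex_adj (hB : IsSymB B) {w : Perm (Fin n)} {k l a b : Fin n} (hkl : (l : ℕ) = k + 1)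
    (hw : w l < w k) (hab : a < b) (hwab : w b < w a)
    (hmid : ∀ c, a < c → c < b → ¬ (w b < w c ∧ w c < w a))
    (hex : HexTop B w (swap k l) (swap a b)) : l = a ∨ k = b := by
  by_contra hcon
  push Not at hcon
  obtain ⟨hla, hkb⟩ := hcon
  have hklt : k < l := by rw [Fin.lt_def]; omega
  by_cases hka : k = a
  · subst hka
    by_cases hlb : l = b
    · subst hlb
      exact hex.ne rfl
    · have hlb' : l < b := by
        rw [Fin.lt_def] at hab ⊢
        have : (l : ℕ) ≠ b := fun h => hlb (Fin.ext h)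
        omega
      have h1 := hmid l hklt hlb'
      have h2 : w l < w b := by
        rcases lt_trichotomy (w l) (w b) with h | h | h
        · exact h
        · exact absurd (w.injective h) hlb
        · exact absurd ⟨h, hw⟩ h1
      refine no_cov_up hB (y := w * swap k l) hab ?_ hex.c3
      rw [Perm.mul_apply, Perm.mul_apply, swap_apply_left,
        swap_apply_of_ne_of_ne hkb.symm (Ne.symm hlb)]
      exact h2
  · by_cases hlb : l = b
    · subst hlb
      have hak : a < k := by
        rw [Fin.lt_def] at hab ⊢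
        have : (k : ℕ) ≠ a := fun h => hka (Fin.ext h)
        omega
      have h1 := hmid k hak hklt
      have h2 : w a < w k := by
        rcases lt_trichotomy (w a) (w k) with h | h | h
        · exact h
        · exact absurd (w.injective h).symm hka
        · exact absurd ⟨hw, h⟩ h1
      refine no_cov_up hB (y := w * swap k l) hab ?_ hex.c3
      rw [Perm.mul_apply, Perm.mul_apply, swap_apply_right,
        swap_apply_of_ne_of_ne (Ne.symm hka) hab.ne]
      exact h2
    · apply hex.ne
      have hcomm : swap k l * swap a b = swap a b * swap k l := by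
        ext c
        simp only [Perm.mul_apply, swap_apply_def]
        split_ifs <;> simp_all
      have h1 := hex.braid
      rw [hcomm, mul_assoc, swap_mul_self, mul_one] at h1
      rw [← hcomm, mul_assoc, swap_mul_self, mul_one] at h1
      exact h1.symm

end

theorem ind_le_of_imp {P Q : Prop} [Decidable P] [Decidable Q] (h : P → Q) : ind P ≤ ind Q := by
  unfold ind
  split_ifs with h1 h2
  · exact le_rfl
  · exact absurd (h h1) h2
  · exact Nat.zero_le _
  · exact le_rfl

theorem ind_and_true {P Q : Prop} [Decidable P] [Decidable Q] (h : P) : ind (P ∧ Q) = ind Q := by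
  unfold ind
  simp [h]

theorem ind_and_false {P Q : Prop} [Decidable P] [Decidable Q] (h : ¬ P) : ind (P ∧ Q) = 0 := by
  unfold ind
  simp [h]

/-- the element `2341` is above everything below `3214` and `1432` -/
theorem meetI {u w : Perm (Fin n)} {a m b j : Fin n} (ham : a < m) (hmb : (b : ℕ) = m + 1)
    (hbj : (j : ℕ) = b + 1) (h1 : w j < w b) (h2 : w b < w a) (h3 : w a < w m)
    (hpR : Le u (w * swap m b * swap b j)) (hpL : Le u (w * swap b j * swap a b)) :
    Le u (w * swap a b * swap m b) := by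
  have hmb' : m < b := by rw [Fin.lt_def]; omega
  have hbj' : b < j := by rw [Fin.lt_def]; omega
  have hab' : a < b := ham.trans hmb'
  have haj' : a < j := hab'.trans hbj'
  have hmj' : m < j := hmb'.trans hbj'
  intro p q
  have g1 := hpR p q
  have g2 := hpL p q
  have e1 := rk_swap_gen w hmb'.ne p q
  have e2 := rk_swap_gen (w * swap m b) hbj'.ne p q
  have e3 := rk_swap_gen w hbj'.ne p q
  have e4 := rk_swap_gen (w * swap b j) hab'.ne p q
  have e5 := rk_swap_gen w hab'.ne p q
  have e6 := rk_swap_gen (w * swap a b) hmb'.ne p q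
  simp only [Perm.mul_apply, swap_apply_right,
    swap_apply_of_ne_of_ne hmj'.ne' hbj'.ne'] at e2
  simp only [Perm.mul_apply, swap_apply_left,
    swap_apply_of_ne_of_ne hab'.ne haj'.ne] at e4
  simp only [Perm.mul_apply, swap_apply_right,
    swap_apply_of_ne_of_ne ham.ne' hmb'.ne] at e6
  have i1 : ind ((w b : ℕ) < q) ≤ ind ((w j : ℕ) < q) :=
    ind_le_of_imp (fun h => lt_trans h1 h)
  have i2 : ind ((w a : ℕ) < q) ≤ ind ((w b : ℕ) < q) :=
    ind_le_of_imp (fun h => lt_trans h2 h)
  have i3 : ind ((w m : ℕ) < q) ≤ ind ((w a : ℕ) < q) :=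
    ind_le_of_imp (fun h => lt_trans h3 h)
  rw [Fin.lt_def] at ham
  by_cases pj : (j : ℕ) < p
  · have pb : (b : ℕ) < p := by omega
    have pm : (m : ℕ) < p := by omega
    have pa : (a : ℕ) < p := by omega
    simp only [ind_and_true pj, ind_and_true pb, ind_and_true pm, ind_and_true pa] at *
    omega
  by_cases pb : (b : ℕ) < p
  · have pm : (m : ℕ) < p := by omega
    have pa : (a : ℕ) < p := by omega
    simp only [ind_and_false pj, ind_and_true pb, ind_and_true pm, ind_and_true pa] at *
    omega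
  by_cases pm : (m : ℕ) < p
  · have pa : (a : ℕ) < p := by omega
    simp only [ind_and_false pj, ind_and_false pb, ind_and_true pm, ind_and_true pa] at *
    omega
  by_cases pa : (a : ℕ) < p
  · simp only [ind_and_false pj, ind_and_false pb, ind_and_false pm, ind_and_true pa] at *
    omega
  · simp only [ind_and_false pj, ind_and_false pb, ind_and_false pm, ind_and_false pa] at *
    omega

/-- the element `4123` is above everything below `1432` and `3214` -/
theorem meetII {u w : Perm (Fin n)} {i a m b : Fin n} (hia : (a : ℕ) = i + 1)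
    (ham : (m : ℕ) = a + 1) (hmb : m < b) (h1 : w m < w b) (h2 : w b < w a) (h3 : w a < w i)
    (hpR : Le u (w * swap a m * swap i a)) (hpL : Le u (w * swap i a * swap a b)) :
    Le u (w * swap a b * swap a m) := by
  have hia' : i < a := by rw [Fin.lt_def]; omega
  have ham' : a < m := by rw [Fin.lt_def]; omega
  have hab' : a < b := ham'.trans hmb
  have him' : i < m := hia'.trans ham'
  have hib' : i < b := hia'.trans hab'
  intro p q
  have g1 := hpR p q
  have g2 := hpL p q
  have e1 := rk_swap_gen w ham'.ne p q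
  have e2 := rk_swap_gen (w * swap a m) hia'.ne p q
  have e3 := rk_swap_gen w hia'.ne p q
  have e4 := rk_swap_gen (w * swap i a) hab'.ne p q
  have e5 := rk_swap_gen w hab'.ne p q
  have e6 := rk_swap_gen (w * swap a b) ham'.ne p q
  simp only [Perm.mul_apply, swap_apply_left,
    swap_apply_of_ne_of_ne hia'.ne him'.ne] at e2
  simp only [Perm.mul_apply, swap_apply_right,
    swap_apply_of_ne_of_ne hib'.ne' hab'.ne'] at e4
  simp only [Perm.mul_apply, swap_apply_left,
    swap_apply_of_ne_of_ne ham'.ne' hmb.ne] at e6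
  have i1 : ind ((w b : ℕ) < q) ≤ ind ((w m : ℕ) < q) :=
    ind_le_of_imp (fun h => lt_trans h1 h)
  have i2 : ind ((w a : ℕ) < q) ≤ ind ((w b : ℕ) < q) :=
    ind_le_of_imp (fun h => lt_trans h2 h)
  have i3 : ind ((w i : ℕ) < q) ≤ ind ((w a : ℕ) < q) :=
    ind_le_of_imp (fun h => lt_trans h3 h)
  rw [Fin.lt_def] at hmb
  by_cases pb : (b : ℕ) < p
  · have pm : (m : ℕ) < p := by omega
    have pa : (a : ℕ) < p := by omega
    have pi : (i : ℕ) < p := by omega
    simp only [ind_and_true pb, ind_and_true pm, ind_and_true pa, ind_and_true pi] at *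
    omega
  by_cases pm : (m : ℕ) < p
  · have pa : (a : ℕ) < p := by omega
    have pi : (i : ℕ) < p := by omega
    simp only [ind_and_false pb, ind_and_true pm, ind_and_true pa, ind_and_true pi] at *
    omega
  by_cases pa : (a : ℕ) < p
  · have pi : (i : ℕ) < p := by omega
    simp only [ind_and_false pb, ind_and_false pm, ind_and_true pa, ind_and_true pi] at *
    omega
  by_cases pi : (i : ℕ) < p
  · simp only [ind_and_false pb, ind_and_false pm, ind_and_false pa, ind_and_true pi] at *
    omega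
  · simp only [ind_and_false pb, ind_and_false pm, ind_and_false pa, ind_and_false pi] at *
    omega

section Main

variable {B : BSys (Perm (Fin n))}

theorem desc_of (hB : IsSymB B) {w : Perm (Fin n)} {k l : Fin n} (hkl : (l : ℕ) = k + 1)
    (hw : w l < w k) : B.len (w * swap k l) < B.len w := by
  rw [hB.hlen, hB.hlen]
  have := len_swap_adj' hkl hw
  omega

/-- a descent different from `M w` of a matching -/
theorem step_desc (hB : IsSymB B) (h3 : Type3S B) {u w : Perm (Fin n)}
    {M : Perm (Fin n) → Perm (Fin n)} (hM : Pool.Agent.H29.Ism.SM B u w M)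
    (hcon : ∀ s ∈ B.S, B.len (w * s) < B.len w →
      B.Le u (w * s) ∧ (M w ≠ w * s → M (w * s) ≠ M w * s))
    {k l i j : Fin n} (hkl : (l : ℕ) = k + 1) (hw : w l < w k) (hMw : M w = w * swap i j)
    (hne : M w ≠ w * swap k l) :
    HexTop B w (swap k l) (swap i j) ∧ B.Le u (w * swap k l) ∧
      M (w * swap k l) = w * swap k l * swap i j := by
  have hS : swap k l ∈ B.S := (hB.hS _).mpr ⟨k, l, hkl, rfl⟩
  have hd := desc_of hB hkl hw
  obtain ⟨h1, h2⟩ := hcon _ hS hd
  obtain ⟨r, hr1, hr2, hr3⟩ := h3 u w M hM _ hS hd h1 hne (h2 hne)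
  have : r = swap i j := mul_left_cancel (hr2.symm.trans hMw)
  subst this
  exact ⟨hr1, h1, hr3⟩

theorem id3a {a m b : Fin n} (h1 : a ≠ m) (h2 : a ≠ b) (h3 : m ≠ b) :
    swap a b * swap a m * swap m b = swap a m := by
  ext c
  simp only [Perm.mul_apply, swap_apply_def]
  split_ifs <;> simp_all

theorem id3b {a m b : Fin n} (h1 : a ≠ m) (h2 : a ≠ b) (h3 : m ≠ b) :
    swap a b * swap m b * swap a m = swap m b := by
  ext c
  simp only [Perm.mul_apply, swap_apply_def]
  split_ifs <;> simp_all

theorem id4a {i j m b : Fin n} (h1 : i ≠ j) (h2 : i ≠ m) (h3 : i ≠ b)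
    (h4 : j ≠ m) (h5 : j ≠ b) (h6 : m ≠ b) :
    swap j m * swap i j * (swap j b * swap i m) = swap i j * swap j b := by
  ext c
  by_cases c1 : c = i
  · subst c1; simp [swap_apply_of_ne_of_ne, *, Ne.symm]
  by_cases c2 : c = j
  · subst c2; simp [swap_apply_of_ne_of_ne, *, Ne.symm]
  by_cases c3 : c = m
  · subst c3; simp [swap_apply_of_ne_of_ne, *, Ne.symm]
  by_cases c4 : c = b
  · subst c4; simp [swap_apply_of_ne_of_ne, *, Ne.symm]
  simp [swap_apply_of_ne_of_ne, *]

theorem id4b {a m b j : Fin n} (h1 : a ≠ m) (h2 : a ≠ b) (h3 : a ≠ j)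
    (h4 : m ≠ b) (h5 : m ≠ j) (h6 : b ≠ j) :
    swap m b * swap b j * (swap a b * swap m j) = swap b j * swap a b := by
  ext c
  by_cases c1 : c = a
  · subst c1; simp [swap_apply_of_ne_of_ne, *, Ne.symm]
  by_cases c2 : c = m
  · subst c2; simp [swap_apply_of_ne_of_ne, *, Ne.symm]
  by_cases c3 : c = b
  · subst c3; simp [swap_apply_of_ne_of_ne, *, Ne.symm]
  by_cases c4 : c = j
  · subst c4; simp [swap_apply_of_ne_of_ne, *, Ne.symm]
  simp [swap_apply_of_ne_of_ne, *]

theorem mul_swap_cancel (x : Perm (Fin n)) (a b : Fin n) : x * swap a b * swap a b = x := by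
  rw [mul_assoc, swap_mul_self, mul_one]

theorem ne_of_apply {x y : Perm (Fin n)} (c : Fin n) (h : x c ≠ y c) : x ≠ y := by
  rintro rfl
  exact h rfl

/-- common part of the final contradictions -/
theorem final_contra (hB : IsSymB B) {u w : Perm (Fin n)}
    {M : Perm (Fin n) → Perm (Fin n)} (hM : Pool.Agent.H29.Ism.SM B u w M)
    {ws wr pR pL b : Perm (Fin n)} (hws : Le ws w) (hwr : Le wr w) (hub : Le u b)
    (hb1 : B.Cov b ws) (hb2 : B.Cov b wr) (hMs : M ws = pR) (hMr : M wr = pL)
    (hc1 : B.Cov pR ws) (hc2 : B.Cov pL wr) (hbR : b ≠ pR) (hbL : b ≠ pL)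
    {a1 a2 a3 a4 : Fin n} (h12 : a1 ≠ a2) (h13 : a1 ≠ a3) (h14 : a1 ≠ a4) (h23 : a2 ≠ a3)
    (h24 : a2 ≠ a4) (h34 : a3 ≠ a4) (hlt12 : a1 < a2) (hlt34 : a3 < a4)
    (hprod : pR * (swap a1 a2 * swap a3 a4) = pL)
    (hno1 : ∃ c, a1 < c ∧ c < a2 ∧ pR a2 < pR c ∧ pR c < pR a1)
    (hno2 : pR a3 < pR a4) : False := by
  have hbw : B.Le b w := B.trans hb1.1 ((hB.hLe _ _).mpr hws)
  have hub' : B.Le u b := (hB.hLe _ _).mpr hub
  have hinv := hM.invol hub' hbw
  have hne1 : M b ≠ ws := by
    intro h
    rw [h, hMs] at hinv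
    exact hbR hinv.symm
  have hne2 : M b ≠ wr := by
    intro h
    rw [h, hMr] at hinv
    exact hbL hinv.symm
  have s1 := (hM.sm2 hub' ((hB.hLe _ _).mpr hws) hb1 hne1 (by rw [hMs]; exact hc1)).2
  have s2 := (hM.sm2 hub' ((hB.hLe _ _).mpr hwr) hb2 hne2 (by rw [hMr]; exact hc2)).2
  rw [hMs, cov_iff hB] at s1
  rw [hMr, cov_iff hB] at s2
  obtain ⟨e1, e2, he, hwe, hMe, hmide⟩ := cov_swap s1.1 s1.2
  obtain ⟨f1, f2, hf, hwf, hMf, hmidf⟩ := cov_swap s2.1 s2.2
  have hkey : swap a1 a2 * swap a3 a4 = swap e1 e2 * swap f1 f2 := by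
    have h1 : pR * swap e1 e2 = pL * swap f1 f2 := hMe.symm.trans hMf
    rw [← hprod] at h1
    have h2 : pR * (swap e1 e2 * swap f1 f2) = pR * (swap a1 a2 * swap a3 a4) := by
      rw [← mul_assoc, h1, mul_assoc, swap_mul_self, mul_one]
    exact (mul_left_cancel h2).symm
  rcases F1 h12 h13 h14 h23 h24 h34 hkey with ⟨h, -⟩ | ⟨h, -⟩
  · obtain ⟨h5, h6⟩ := swap_inj_lt hlt12 he h
    subst h5; subst h6
    obtain ⟨c, hc1, hc2, hc3, hc4⟩ := hno1
    exact hmide c hc1 hc2 ⟨hc3, hc4⟩
  · obtain ⟨h5, h6⟩ := swap_inj_lt hlt34 he h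
    subst h5; subst h6
    exact absurd hwe hno2.not_gt

theorem claimF_of (hB : IsSymB B) (h3 : Type3S B) (h7 : CoatomS B) : ClaimF B := by
  intro u w M hM hne hdes
  by_contra hcon0
  have hcon : ∀ s ∈ B.S, B.len (w * s) < B.len w →
      B.Le u (w * s) ∧ (M w ≠ w * s → M (w * s) ≠ M w * s) := by
    intro s hs hd
    by_contra hc
    apply hcon0
    refine ⟨s, hs, hd, ?_⟩
    by_cases h : B.Le u (w * s)
    · right
      by_contra hc2
      apply hc
      refine ⟨h, fun h4 h5 => hc2 ⟨h4, h5⟩⟩
    · left; exact h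
  -- step 1
  have hdt := hM.down_top
  rw [cov_iff hB] at hdt
  obtain ⟨i, j, hij, hwij, hMw, hmid⟩ := cov_swap hdt.1 hdt.2
  have hji : (j : ℕ) = i + 1 := by
    by_contra hj
    rw [Fin.lt_def] at hij
    obtain ⟨k, l, hkl, hik, hlj, hwkl⟩ :=
      exists_desc_between w ((j : ℕ) - (i + 1)) i j (by omega) hwij
    have hklt : k < l := by rw [Fin.lt_def]; omega
    have hne' : M w ≠ w * swap k l := by
      rw [hMw]
      intro h
      have h1 := swap_inj_lt (by rw [Fin.lt_def]; omega) hklt (mul_left_cancel h).symm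
      rw [h1.1, h1.2] at hkl
      exact hj hkl
    obtain ⟨hex, -, -⟩ := step_desc hB h3 hM hcon hkl hwkl hMw hne'
    rw [Fin.le_def] at hik hlj
    rcases hex_adj hB hkl hwkl (by rw [Fin.lt_def]; omega) hwij hmid hex with h | h
    · subst h; omega
    · subst h; omega
  -- step 2
  have hstep2 : ∀ k l : Fin n, (l : ℕ) = k + 1 → w l < w k → k ≠ i →
      (l = i ∨ k = j) ∧ HexTop B w (swap k l) (swap i j) ∧ B.Le u (w * swap k l) ∧
        M (w * swap k l) = w * swap k l * swap i j := by
    intro k l hkl hwkl hki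
    have hklt : k < l := by rw [Fin.lt_def]; omega
    have hne' : M w ≠ w * swap k l := by
      rw [hMw]
      intro h
      have h1 := swap_inj_lt hij hklt (mul_left_cancel h).symm
      exact hki h1.1
    obtain ⟨hex, h5, h6⟩ := step_desc hB h3 hM hcon hkl hwkl hMw hne'
    exact ⟨hex_adj hB hkl hwkl hij hwij hmid hex, hex, h5, h6⟩
  -- step 3
  have hs0 : swap i j ∈ B.S := (hB.hS _).mpr ⟨i, j, hji, rfl⟩
  have hd0 := desc_of hB hji hwij
  obtain ⟨r, hex0, hur, hMr⟩ := h7 u w M hM _ hs0 hd0 hMw (hdes _ hs0 hd0)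
  have hc2 := hex0.c2
  rw [cov_iff hB] at hc2
  obtain ⟨a, b, hab, hwab, hr, hmid'⟩ := cov_swap hc2.1 hc2.2
  have hr' : r = swap a b := mul_left_cancel hr
  subst hr'
  have hbne : (b : ℕ) ≠ a + 1 := by
    intro hb
    have hSr : swap a b ∈ B.S := (hB.hS _).mpr ⟨a, b, hb, rfl⟩
    obtain ⟨-, h5⟩ := hcon _ hSr (desc_of hB hb hwab)
    apply h5
    · rw [hMw]
      intro h
      exact hex0.ne (mul_left_cancel h)
    · rw [hMr, hMw]
  have hwrw : Le (w * swap a b) w := hc2.1
  have hlr := hc2.2
  rcases hex_adj hB hji hwij hab hwab hmid' hex0 with h | h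
  · -- case II: `s0 = (a - 1, a)`
    subst h
    have hablt : (j : ℕ) < b := hab
    have hm : (j : ℕ) + 1 < n := by have := b.is_lt; omega
    obtain ⟨m, hmj⟩ : ∃ m : Fin n, (m : ℕ) = j + 1 := ⟨⟨j + 1, hm⟩, rfl⟩
    have hmb : m < b := by rw [Fin.lt_def]; omega
    have hjm : j < m := by rw [Fin.lt_def]; omega
    have hinc : ∀ c : Fin n, m ≤ c → c < b → w c < w b := by
      intro c hmc hcb
      by_contra hcc
      rw [Fin.lt_def] at hcb
      rw [Fin.le_def] at hmc
      have hcne : c ≠ b := fun h => by rw [h] at hcb; exact lt_irrefl _ hcb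
      have hcc' : w b < w c := lt_of_le_of_ne (not_lt.mp hcc) (fun h => hcne (w.injective h).symm)
      obtain ⟨k, l, hkl, hik, hlj, hwkl⟩ :=
        exists_desc_between w ((b : ℕ) - (c + 1)) c b (by omega) hcc'
      rw [Fin.le_def] at hik hlj
      have hki : k ≠ i := fun h => by rw [h] at hik; omega
      rcases (hstep2 k l hkl hwkl hki).1 with h | h
      · rw [h] at hkl; omega
      · rw [h] at hik; omega
    have hwmb : w m < w b := hinc m le_rfl hmb
    obtain ⟨-, hexs, hus, hMs⟩ := hstep2 j m hmj (hwmb.trans hwab) hij.ne'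
    have hws : Le (w * swap j m) w := ((cov_iff hB).mp hexs.c1).1
    have hls := ((cov_iff hB).mp hexs.c1).2
    have him : i < m := hij.trans hjm
    have hib : i < b := hij.trans hab
    -- the elements above `u`
    have huw : B.Le (w * swap j m) w := (hB.hLe _ _).mpr hws
    have huw' : B.Le (w * swap j b) w := (hB.hLe _ _).mpr hwrw
    have hpR := (hB.hLe _ _).mp (hM.maps hus huw).1
    have hpL := (hB.hLe _ _).mp (hM.maps hur huw').1
    rw [hMs] at hpR
    rw [hMr] at hpL
    have hub := meetII hji hmj hmb hwmb hwab hwij hpR hpL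
    have hbl : len (w * swap j b) = len (w * swap j b * swap j m) + 1 := by
      apply len_swap_adj' hmj
      rw [Perm.mul_apply, Perm.mul_apply, swap_apply_left, swap_apply_of_ne_of_ne hjm.ne' hmb.ne]
      exact hwmb
    have hup : Le (w * swap j b * swap j m) (w * swap j b) := by
      have := le_swap (w * swap j b * swap j m) hjm (by
        simp only [Perm.mul_apply, swap_apply_left, swap_apply_right]
        rw [swap_apply_of_ne_of_ne hjm.ne' hmb.ne]
        exact hwmb)
      rwa [mul_swap_cancel] at this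
    have heq : w * swap j b * swap j m * swap m b = w * swap j m := by
      have h := id3a hjm.ne hab.ne hmb.ne
      rw [mul_assoc, mul_assoc, ← mul_assoc (swap j b), h]
    have hup2 : Le (w * swap j b * swap j m) (w * swap j m) := by
      have := le_swap (w * swap j b * swap j m) hmb (by
        simp only [Perm.mul_apply, swap_apply_right]
        rw [swap_apply_of_ne_of_ne hab.ne' hmb.ne', swap_apply_left, swap_apply_right]
        exact hwab)
      rwa [heq] at this
    have hprod : w * swap j m * swap i j * (swap j b * swap i m) = w * swap i j * swap j b := by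
      have := id4a hij.ne him.ne hib.ne hjm.ne hab.ne hmb.ne
      rw [mul_assoc, mul_assoc, mul_assoc, ← this, mul_assoc]
    have hRi : (w * swap j m * swap i j) i = w m := by
      simp only [Perm.mul_apply, swap_apply_left]
    have hRj : (w * swap j m * swap i j) j = w i := by
      simp only [Perm.mul_apply, swap_apply_right]
      rw [swap_apply_of_ne_of_ne hij.ne him.ne]
    have hRm : (w * swap j m * swap i j) m = w j := by
      simp only [Perm.mul_apply]
      rw [swap_apply_of_ne_of_ne him.ne' hjm.ne', swap_apply_right]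
    have hRb : (w * swap j m * swap i j) b = w b := by
      simp only [Perm.mul_apply]
      rw [swap_apply_of_ne_of_ne hib.ne' hab.ne', swap_apply_of_ne_of_ne hab.ne' hmb.ne']
    have hLi : (w * swap i j * swap j b) i = w j := by
      simp only [Perm.mul_apply]
      rw [swap_apply_of_ne_of_ne hij.ne hib.ne, swap_apply_left]
    have hBi : (w * swap j b * swap j m) i = w i := by
      simp only [Perm.mul_apply]
      rw [swap_apply_of_ne_of_ne hij.ne him.ne, swap_apply_of_ne_of_ne hij.ne hib.ne]
    refine final_contra hB hM (b := w * swap j b * swap j m) hws hwrw hub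
      ((cov_iff hB).mpr ⟨hup2, by omega⟩) ((cov_iff hB).mpr ⟨hup, hbl⟩) hMs hMr hexs.c3 hex0.c4
      (ne_of_apply i ?_) (ne_of_apply i ?_) hab.ne hij.ne' hjm.ne hib.ne' hmb.ne'
      him.ne hab him hprod ⟨m, hjm, hmb, ?_, ?_⟩ ?_
    · rw [hBi, hRi]; exact ((hwmb.trans hwab).trans hwij).ne'
    · rw [hBi, hLi]; exact hwij.ne'
    · rw [hRb, hRm]; exact hwab
    · rw [hRm, hRj]; exact hwij
    · rw [hRi, hRm]; exact hwmb.trans hwab
  · -- case I: `s0 = (b, b + 1)`
    subst h
    have hablt : (a : ℕ) < i := hab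
    have hm : (i : ℕ) - 1 < n := by have := i.is_lt; omega
    obtain ⟨m, hmi⟩ : ∃ m : Fin n, (i : ℕ) = m + 1 := ⟨⟨i - 1, hm⟩, by simp only; omega⟩
    have ham : a < m := by rw [Fin.lt_def]; omega
    have hmi' : m < i := by rw [Fin.lt_def]; omega
    have hinc : ∀ c : Fin n, a < c → c ≤ m → w a < w c := by
      intro c hac hcm
      by_contra hcc
      rw [Fin.lt_def] at hac
      rw [Fin.le_def] at hcm
      have hcne : c ≠ a := fun h => by rw [h] at hac; exact lt_irrefl _ hac
      have hcc' : w c < w a := lt_of_le_of_ne (not_lt.mp hcc) (fun h => hcne (w.injective h))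
      obtain ⟨k, l, hkl, hik, hlj, hwkl⟩ :=
        exists_desc_between w ((c : ℕ) - (a + 1)) a c (by omega) hcc'
      rw [Fin.le_def] at hik hlj
      have hki : k ≠ i := fun h => by rw [h] at hkl; omega
      rcases (hstep2 k l hkl hwkl hki).1 with h | h
      · rw [h] at hlj; omega
      · rw [h] at hkl; omega
    have hwam : w a < w m := hinc m ham le_rfl
    have hki : m ≠ i := hmi'.ne
    obtain ⟨-, hexs, hus, hMs⟩ := hstep2 m i hmi (hwab.trans hwam) hki
    have hws : Le (w * swap m i) w := ((cov_iff hB).mp hexs.c1).1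
    have hls := ((cov_iff hB).mp hexs.c1).2
    have hmj : m < j := hmi'.trans hij
    have haj : a < j := hab.trans hij
    have huw : B.Le (w * swap m i) w := (hB.hLe _ _).mpr hws
    have huw' : B.Le (w * swap a i) w := (hB.hLe _ _).mpr hwrw
    have hpR := (hB.hLe _ _).mp (hM.maps hus huw).1
    have hpL := (hB.hLe _ _).mp (hM.maps hur huw').1
    rw [hMs] at hpR
    rw [hMr] at hpL
    have hub := meetI ham hmi hji hwij hwab hwam hpR hpL
    have hbl : len (w * swap a i) = len (w * swap a i * swap m i) + 1 := by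
      apply len_swap_adj' hmi
      rw [Perm.mul_apply, Perm.mul_apply, swap_apply_right, swap_apply_of_ne_of_ne ham.ne' hmi'.ne]
      exact hwam
    have hup : Le (w * swap a i * swap m i) (w * swap a i) := by
      have := le_swap (w * swap a i * swap m i) hmi' (by
        simp only [Perm.mul_apply, swap_apply_left, swap_apply_right]
        rw [swap_apply_of_ne_of_ne ham.ne' hmi'.ne]
        exact hwam)
      rwa [mul_swap_cancel] at this
    have heq : w * swap a i * swap m i * swap a m = w * swap m i := by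
      have h := id3b ham.ne hab.ne hmi'.ne
      rw [mul_assoc, mul_assoc, ← mul_assoc (swap a i), h]
    have hup2 : Le (w * swap a i * swap m i) (w * swap m i) := by
      have := le_swap (w * swap a i * swap m i) ham (by
        simp only [Perm.mul_apply, swap_apply_left]
        rw [swap_apply_of_ne_of_ne ham.ne hab.ne, swap_apply_left, swap_apply_right]
        exact hwab)
      rwa [heq] at this
    have hprod : w * swap m i * swap i j * (swap a i * swap m j) = w * swap i j * swap a i := by
      have := id4b ham.ne hab.ne haj.ne hmi'.ne hmj.ne hij.ne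
      rw [mul_assoc, mul_assoc, mul_assoc, ← this, mul_assoc]
    have hRa : (w * swap m i * swap i j) a = w a := by
      simp only [Perm.mul_apply]
      rw [swap_apply_of_ne_of_ne hab.ne haj.ne, swap_apply_of_ne_of_ne ham.ne hab.ne]
    have hRm : (w * swap m i * swap i j) m = w i := by
      simp only [Perm.mul_apply]
      rw [swap_apply_of_ne_of_ne hmi'.ne hmj.ne, swap_apply_left]
    have hRi : (w * swap m i * swap i j) i = w j := by
      simp only [Perm.mul_apply, swap_apply_left]
      rw [swap_apply_of_ne_of_ne hmj.ne' hij.ne']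
    have hRj : (w * swap m i * swap i j) j = w m := by
      simp only [Perm.mul_apply, swap_apply_right]
    have hLj : (w * swap i j * swap a i) j = w i := by
      simp only [Perm.mul_apply]
      rw [swap_apply_of_ne_of_ne haj.ne' hij.ne', swap_apply_right]
    have hBj : (w * swap a i * swap m i) j = w j := by
      simp only [Perm.mul_apply]
      rw [swap_apply_of_ne_of_ne hmj.ne' hij.ne', swap_apply_of_ne_of_ne haj.ne' hij.ne']
    refine final_contra hB hM (b := w * swap a i * swap m i) hws hwrw hub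
      ((cov_iff hB).mpr ⟨hup2, by omega⟩) ((cov_iff hB).mpr ⟨hup, hbl⟩) hMs hMr hexs.c3 hex0.c4
      (ne_of_apply j ?_) (ne_of_apply j ?_) hab.ne ham.ne haj.ne hmi'.ne' hij.ne
      hmj.ne hab hmj hprod ⟨m, ham, hmi', ?_, ?_⟩ ?_
    · rw [hBj, hRj]; exact (hwij.trans (hwab.trans hwam)).ne
    · rw [hBj, hLj]; exact hwij.ne
    · rw [hRi, hRm]; exact hwij
    · rw [hRm, hRa]; exact hwab
    · rw [hRm, hRj]; exact hwab.trans hwam

end Main

end Pool.Agent.H6.Ism
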