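import Pool.Agent.H6.Ism.C2
import Pool.Agent.H29.Ism.A3
import Pool.Agent.H91.Ism.A7

/-! # ISM module C2, with the abstract lemmas plugged in -/

namespace Pool.Agent.H6.Ism

open Equiv Pool.Agent.H29.Ism

theorem claimF_sym' {n : ℕ} {B : BSys (Perm (Fin n))} (hB : IsSymB B) : ClaimF B :=
  claimF_of hB
    (fun _ _ _ hM _ hs hd hu h1 h2 => Pool.Agent.H29.Ism.type3 hM hs hd hu h1 h2)
    (fun _ _ _ hM _ hs hd h1 h2 => Pool.Agent.H91.Ism.coatomL hM hs hd h1 h2)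

end Pool.Agent.H6.Ism
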